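import Mathlib

set_option autoImplicit false

namespace Pool.Agent.H.MP_fcf9e8_nt

open Finset Pointwise

/-- numbers with base `b` digits in {0,1} supported on positions `< k`. -/
def Z (b k n : ℕ) : Prop := ∃ S : Finset ℕ, S ⊆ range k ∧ n = ∑ d ∈ S, b ^ d

theorem Z_zero (b k : ℕ) : Z b k 0 := ⟨∅, by simp, by simp⟩

theorem Z_mono {b k k' n : ℕ} (h : Z b k n) (hk : k ≤ k') : Z b k' n := by
  obtain ⟨S, hS, rfl⟩ := h
  exact ⟨S, hS.trans (range_mono hk), rfl⟩

theorem Z_one (b : ℕ) : Z b 1 1 := ⟨{0}, by simp, by simp⟩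

theorem Z_add {b k K x y : ℕ} (hx : Z b k x) (hy : Z b K y) : Z b (k + K) (x + b ^ k * y) := by
  obtain ⟨S, hS, rfl⟩ := hx
  obtain ⟨T, hT, rfl⟩ := hy
  refine ⟨S ∪ T.map (addLeftEmbedding k), ?_, ?_⟩
  · intro d hd
    rcases mem_union.1 hd with h | h
    · have := mem_range.1 (hS h); exact mem_range.2 (by omega)
    · obtain ⟨e, he, rfl⟩ := mem_map.1 h
      have := mem_range.1 (hT he)
      exact mem_range.2 (by simp only [addLeftEmbedding_apply]; omega)
  · rw [sum_union, sum_map, mul_sum]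
    · simp [pow_add]
    · rw [disjoint_left]
      intro d hd h
      obtain ⟨e, he, rfl⟩ := mem_map.1 h
      have := mem_range.1 (hS hd)
      simp only [addLeftEmbedding_apply] at this; omega

theorem Z_lt {b k n : ℕ} (hb : 2 ≤ b) (h : Z b k n) : n < b ^ k := by
  obtain ⟨S, hS, rfl⟩ := h
  have h1 : ∑ d ∈ S, b ^ d ≤ ∑ d ∈ range k, b ^ d := sum_le_sum_of_subset hS
  have h2 : ∀ k, ∑ d ∈ range k, b ^ d < b ^ k := by
    intro k
    induction k with
    | zero => simp
    | succ k ih => rw [sum_range_succ, pow_succ]; nlinarith [Nat.mul_le_mul_left (b ^ k) hb]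
  exact h1.trans_lt (h2 k)

theorem Z_decomp (h : ℕ) : ∀ k m : ℕ, m < (h + 1) ^ k →
    ∃ f : Fin h → ℕ, (∀ i, Z (h + 1) k (f i)) ∧ ∑ i, f i = m := by
  intro k
  induction k with
  | zero => intro m hm; exact ⟨fun _ => 0, fun _ => Z_zero _ _, by simp at hm; simp [hm]⟩
  | succ k ih =>
    intro m hm
    obtain ⟨f, hf, hs⟩ := ih (m / (h + 1)) (by
      rw [Nat.div_lt_iff_lt_mul (by omega)]; rwa [pow_succ] at hm)
    have hc : m % (h + 1) ≤ h := Nat.lt_succ_iff.1 (Nat.mod_lt _ (by omega))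
    refine ⟨fun i => (if (i : ℕ) < m % (h + 1) then 1 else 0) + (h + 1) ^ 1 * f i, fun i => ?_, ?_⟩
    · rw [add_comm k 1]
      apply Z_add _ (hf i)
      split_ifs
      · exact Z_one _
      · exact Z_zero _ _
    · rw [sum_add_distrib, ← mul_sum, hs, pow_one]
      have : ∑ i : Fin h, (if (i : ℕ) < m % (h + 1) then 1 else 0) = m % (h + 1) := by
        rw [Fin.sum_univ_eq_sum_range (fun i => if i < m % (h + 1) then 1 else 0) h]
        rw [← sum_filter]
        have : filter (fun i => i < m % (h + 1)) (range h) = range (m % (h + 1)) := by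
          ext i; simp only [mem_filter, mem_range]; omega
        simp [this]
      rw [this]; exact Nat.mod_add_div m (h + 1)

/-- growth via Pluennecke. -/
theorem grow {G : Type} [AddCommGroup G] [Fintype G] [DecidableEq G] (h : ℕ) (hh : 1 ≤ h)
    (X B : Finset G) (hX : X.Nonempty) (hB : h • B = univ) :
    Real.log (Fintype.card G) - Real.log (X + B).card ≤
      (1 - 1 / (h : ℝ)) * (Real.log (Fintype.card G) - Real.log X.card) := by
  have h1 := pluennecke_ruzsa_inequality_nsmul_add hX B h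
  rw [hB, card_univ] at h1
  have h2 : ((Fintype.card G : ℕ) : ℝ) ≤ (((X + B).card : ℝ) / X.card) ^ h * X.card := by
    have := (NNRat.cast_le (K := ℝ)).2 h1
    simpa using this
  have hx : (0 : ℝ) < X.card := by exact_mod_cast hX.card_pos
  have hG : (0 : ℝ) < Fintype.card G := by exact_mod_cast Fintype.card_pos
  have hBne : B.Nonempty := by
    rw [nonempty_iff_ne_empty]
    rintro rfl
    rw [Finset.nsmul_empty (by omega)] at hB
    exact univ_nonempty.ne_empty hB.symm
  have hxb : (0 : ℝ) < (X + B).card := by exact_mod_cast (hX.add hBne).card_pos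
  have h3 := Real.log_le_log hG h2
  rw [Real.log_mul (by positivity) hx.ne', Real.log_pow, Real.log_div hxb.ne' hx.ne'] at h3
  have hh' : (0 : ℝ) < h := by exact_mod_cast hh
  have : (1 - 1 / (h : ℝ)) * (Real.log (Fintype.card G) - Real.log X.card) =
      (Real.log (Fintype.card G) - Real.log X.card) -
        (Real.log (Fintype.card G) - Real.log X.card) / h := by ring
  rw [this]
  have : (Real.log (Fintype.card G) - Real.log X.card) / h ≤
      Real.log (X + B).card - Real.log X.card := by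
    rw [div_le_iff₀ hh']; linarith
  linarith

open Classical in
/-- residues approximately reached by digit numbers. -/
noncomputable def R (b M k : ℕ) [NeZero M] (θ w : ℝ) : Finset (ZMod M) :=
  univ.filter fun g => ∃ y, Z b k y ∧ ∃ t : ℤ, (t : ZMod M) = g ∧ |(t : ℝ) - θ * y| ≤ w

theorem mem_R {b M k : ℕ} [NeZero M] {θ w : ℝ} {g : ZMod M} :
    g ∈ R b M k θ w ↔ ∃ y, Z b k y ∧ ∃ t : ℤ, (t : ZMod M) = g ∧ |(t : ℝ) - θ * y| ≤ w := by
  simp [R]

theorem R_add {b M k K : ℕ} [NeZero M] {θ w w' : ℝ} :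
    R b M k θ w + R b M K (θ * b ^ k) w' ⊆ R b M (k + K) θ (w + w') := by
  intro g hg
  obtain ⟨g1, h1, g2, h2, rfl⟩ := mem_add.1 hg
  obtain ⟨y1, z1, t1, rfl, e1⟩ := mem_R.1 h1
  obtain ⟨y2, z2, t2, rfl, e2⟩ := mem_R.1 h2
  refine mem_R.2 ⟨_, Z_add z1 z2, t1 + t2, by push_cast; rfl, ?_⟩
  have : ((t1 + t2 : ℤ) : ℝ) - θ * ((y1 + b ^ k * y2 : ℕ) : ℝ) =
      (t1 - θ * y1) + (t2 - θ * b ^ k * y2) := by push_cast; ring
  rw [this]
  exact (abs_add_le _ _).trans (add_le_add e1 e2)

theorem half {M K h : ℕ} [NeZero M] (hh : 1 ≤ h) (θ w : ℝ) (hw : 0 ≤ w) : ∀ J : ℕ,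
    (∀ j < J, h • R (h + 1) M K (θ * ((h + 1 : ℕ) : ℝ) ^ (j * K)) w = univ) →
    Real.log M - Real.log (R (h + 1) M (J * K) θ (J * w)).card ≤
      (1 - 1 / (h : ℝ)) ^ J * Real.log M := by
  have hne : ∀ k (w : ℝ), 0 ≤ w → (R (h + 1) M k θ w).Nonempty := fun k w hw =>
    ⟨0, mem_R.2 ⟨0, Z_zero _ _, 0, by simp, by simpa using hw⟩⟩
  intro J
  induction J with
  | zero =>
    intro _
    have : (1 : ℝ) ≤ (R (h + 1) M (0 * K) θ ((0 : ℕ) * w)).card := by
      exact_mod_cast (hne _ _ (by simp)).card_pos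
    have := Real.log_nonneg this
    simpa using this
  | succ J ih =>
    intro H
    have h1 := ih (fun j hj => H j (by omega))
    have hX := hne (J * K) (J * w) (by positivity)
    have h2 := grow h hh _ _ hX (H J (by omega))
    rw [ZMod.card] at h2
    have h3 : (R (h + 1) M (J * K) θ (J * w) +
        R (h + 1) M K (θ * ((h + 1 : ℕ) : ℝ) ^ (J * K)) w).card ≤
        (R (h + 1) M ((J + 1) * K) θ (((J + 1 : ℕ) : ℝ) * w)).card := by
      apply card_le_card
      have := R_add (b := h + 1) (M := M) (k := J * K) (K := K) (θ := θ) (w := J * w) (w' := w)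
      convert this using 2
      · ring
      · push_cast; ring
    have hpos : (0 : ℝ) < (R (h + 1) M (J * K) θ (J * w) +
        R (h + 1) M K (θ * ((h + 1 : ℕ) : ℝ) ^ (J * K)) w).card := by
      have hB : (R (h + 1) M K (θ * ((h + 1 : ℕ) : ℝ) ^ (J * K)) w).Nonempty :=
        ⟨0, mem_R.2 ⟨0, Z_zero _ _, 0, by simp, by simpa using hw⟩⟩
      exact_mod_cast (hX.add hB).card_pos
    have h4 := Real.log_le_log hpos (Nat.cast_le.2 h3)
    have hc : (0 : ℝ) ≤ 1 - 1 / (h : ℝ) := by
      have : (1 : ℝ) ≤ h := by exact_mod_cast hh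
      have : 1 / (h : ℝ) ≤ 1 := by rw [div_le_one (by linarith)]; exact this
      linarith
    have h5 := mul_le_mul_of_nonneg_left h1 hc
    rw [pow_succ]
    nlinarith

theorem core {M K h : ℕ} [NeZero M] (hh : 1 ≤ h) (θ w : ℝ) (hw : 0 ≤ w) (J : ℕ)
    (hJ : (1 - 1 / (h : ℝ)) ^ J * Real.log M < Real.log 2)
    (H : ∀ j < 2 * J, h • R (h + 1) M K (θ * ((h + 1 : ℕ) : ℝ) ^ (j * K)) w = univ)
    (g : ZMod M) : g ∈ R (h + 1) M (2 * J * K) θ (2 * J * w) := by
  have hM : (0 : ℝ) < M := by exact_mod_cast Nat.pos_of_ne_zero (NeZero.ne M)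
  have big : ∀ X : Finset (ZMod M), X.Nonempty → Real.log M - Real.log X.card < Real.log 2 →
      M < 2 * X.card := by
    intro X hX hl
    have hx : (0 : ℝ) < X.card := by exact_mod_cast hX.card_pos
    have : Real.log M < Real.log (2 * X.card) := by
      rw [Real.log_mul (by norm_num) hx.ne']; linarith
    have := (Real.log_lt_log_iff hM (by positivity)).1 this
    exact_mod_cast this
  have h1 := half (M := M) (K := K) hh θ w hw J (fun j hj => H j (by omega))
  have h2 := half (M := M) (K := K) hh (θ * ((h + 1 : ℕ) : ℝ) ^ (J * K)) w hw J (fun j hj => by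
    have := H (J + j) (by omega)
    rw [add_mul, pow_add, ← mul_assoc] at this
    exact this)
  set X := R (h + 1) M (J * K) θ (J * w) with hX
  set Y := R (h + 1) M (J * K) (θ * ((h + 1 : ℕ) : ℝ) ^ (J * K)) (J * w) with hY
  have b1 := big X ⟨0, mem_R.2 ⟨0, Z_zero _ _, 0, by simp, by simp; positivity⟩⟩ (h1.trans_lt hJ)
  have b2 := big Y ⟨0, mem_R.2 ⟨0, Z_zero _ _, 0, by simp, by simp; positivity⟩⟩ (h2.trans_lt hJ)
  have hg : g ∈ X + Y := by
    by_contra hn
    have hd : Disjoint X (Y.image (fun y => g - y)) := by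
      rw [disjoint_left]
      intro x hx hx'
      obtain ⟨y, hy, rfl⟩ := mem_image.1 hx'
      exact hn (mem_add.2 ⟨_, hx, y, hy, by ring⟩)
    have hc := card_le_univ (X ∪ Y.image (fun y => g - y))
    rw [card_union_of_disjoint hd, card_image_of_injective _ sub_right_injective, ZMod.card] at hc
    omega
  have := R_add (b := h + 1) (M := M) (k := J * K) (K := J * K) (θ := θ) (w := J * w)
    (w' := J * w) hg
  convert this using 2
  · ring
  · ring

end Pool.Agent.H.MP_fcf9e8_nt
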