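import Pool.Agent.H.MP_fcf9e8_nt.A

set_option autoImplicit false

namespace Pool.Agent.H.MP_fcf9e8_nt

open Finset Pointwise

theorem sum_mem_nsmul {G : Type} [AddCommGroup G] [DecidableEq G] {h : ℕ} (B : Finset G)
    (f : Fin h → G) (hf : ∀ i, f i ∈ B) : ∑ i, f i ∈ h • B := by
  rw [Finset.mem_nsmul]
  exact ⟨fun i => ⟨f i, hf i⟩, by simp [List.sum_ofFn]⟩

theorem cover {M K h : ℕ} [NeZero M] (hh : 1 ≤ h) (θ w : ℝ)
    (H : ∀ g : ZMod M, ∃ m : ℕ, m < (h + 1) ^ K ∧ ∃ t : ℤ, (t : ZMod M) = g ∧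
      |(t : ℝ) - θ * m| ≤ w) : h • R (h + 1) M K θ (w + h) = univ := by
  rw [eq_univ_iff_forall]
  intro g
  obtain ⟨m, hm, t, rfl, ht⟩ := H g
  obtain ⟨f, hf, rfl⟩ := Z_decomp h K m hm
  let i0 : Fin h := ⟨0, hh⟩
  let u : Fin h → ℤ := fun i => round (θ * f i) + if i = i0 then t - ∑ j, round (θ * f j) else 0
  have hu : ∑ i, u i = t := by
    simp only [u, sum_add_distrib, sum_ite_eq', mem_univ, if_true]; ring
  have h1 : (1 : ℝ) ≤ h := by exact_mod_cast hh
  have hr : ∀ j, |((round (θ * f j) : ℤ) : ℝ) - θ * f j| ≤ 1 / 2 := fun j => by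
    rw [abs_sub_comm]; exact abs_sub_round _
  have hs : |((t - ∑ j, round (θ * f j) : ℤ) : ℝ)| ≤ w + h / 2 := by
    have e : ((t - ∑ j, round (θ * f j) : ℤ) : ℝ) = ((t : ℝ) - θ * ((∑ i, f i : ℕ) : ℝ)) -
        ∑ j, (((round (θ * f j) : ℤ) : ℝ) - θ * f j) := by
      push_cast; rw [sum_sub_distrib, mul_sum]; ring
    rw [e]
    refine (abs_sub _ _).trans (add_le_add ht ?_)
    refine (abs_sum_le_sum_abs _ _).trans ?_
    refine (sum_le_sum fun j _ => hr j).trans ?_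
    simp; linarith
  have hw : 0 ≤ w := (abs_nonneg _).trans ht
  have : ((t : ℤ) : ZMod M) = ∑ i, ((u i : ℤ) : ZMod M) := by rw [← hu]; push_cast; rfl
  rw [this]
  apply sum_mem_nsmul
  intro i
  refine mem_R.2 ⟨f i, hf i, u i, rfl, ?_⟩
  by_cases hi : i = i0
  · have e : ((u i : ℤ) : ℝ) - θ * f i = (((round (θ * f i) : ℤ) : ℝ) - θ * f i) +
        ((t - ∑ j, round (θ * f j) : ℤ) : ℝ) := by
      simp only [u, if_pos hi]; push_cast; ring
    rw [e]
    refine (abs_add_le _ _).trans ?_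
    have := hr i
    linarith
  · have e : ((u i : ℤ) : ℝ) - θ * f i = (((round (θ * f i) : ℤ) : ℝ) - θ * f i) := by
      simp only [u, if_neg hi]; push_cast; ring
    rw [e]
    have := hr i
    linarith

theorem cover0 {M K h c : ℕ} [NeZero M] (hM : M ≤ (h + 1) ^ K) (hc : Nat.Coprime c M) :
    h • R (h + 1) M K (c : ℝ) 0 = univ := by
  rw [eq_univ_iff_forall]
  intro g
  obtain ⟨f, hf, hs⟩ := Z_decomp h K ((c : ZMod M)⁻¹ * g).val ((ZMod.val_lt _).trans_le hM)
  have : g = ∑ i, (((c * f i : ℕ) : ℤ) : ZMod M) := by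
    push_cast
    rw [← mul_sum, ← Nat.cast_sum, hs, ZMod.natCast_zmod_val, ← mul_assoc,
      ZMod.coe_mul_inv_eq_one c hc, one_mul]
  rw [this]
  apply sum_mem_nsmul
  intro i
  exact mem_R.2 ⟨f i, hf i, _, rfl, by push_cast; simp⟩

theorem split (b : ℕ) (hb : 0 < b) : ∀ r : ℕ, 0 < r →
    ∃ e s : ℕ, 2 ^ e ≤ r ∧ 0 < s ∧ s ≤ r ∧ Nat.Coprime b s ∧ r ∣ b ^ e * s := by
  intro r
  induction r using Nat.strong_induction_on with
  | _ r ih =>
    intro hr
    by_cases hc : Nat.Coprime b r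
    · exact ⟨0, r, by rw [pow_zero]; exact hr, hr, le_rfl, hc, by simp⟩
    · obtain ⟨r', hr'⟩ := Nat.gcd_dvd_right b r
      have hg : 2 ≤ Nat.gcd b r := by
        have := Nat.gcd_pos_of_pos_left r hb
        have : Nat.gcd b r ≠ 1 := hc
        omega
      have hp : 0 < r' := by
        rcases Nat.eq_zero_or_pos r' with h | h
        · rw [h] at hr'; omega
        · exact h
      have h2 : 2 * r' ≤ r := by rw [hr']; exact Nat.mul_le_mul_right _ hg
      obtain ⟨e, s, h1, h3, h4, h5, h6⟩ := ih r' (by omega) hp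
      refine ⟨e + 1, s, by rw [pow_succ]; omega, h3, by omega, h5, ?_⟩
      rw [hr', pow_succ, mul_comm (b ^ e) b, mul_assoc]
      exact Nat.mul_dvd_mul (Nat.gcd_dvd_left _ _) h6

theorem modular {h k J r : ℕ} (hh : 1 ≤ h) (hr : 0 < r) (hrk : r ≤ (h + 1) ^ k)
    (hJ : (1 - 1 / (h : ℝ)) ^ J * Real.log ((h + 1 : ℕ) ^ k) < Real.log 2) :
    ∃ n, Z (h + 1) ((h + 1) * k + (2 * J * k + 1)) n ∧ 0 < n ∧ r ∣ n := by
  obtain ⟨e, s, h1, h3, h4, h5, h6⟩ := split (h + 1) (by omega) r hr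
  haveI : NeZero s := ⟨h3.ne'⟩
  have hc : (0 : ℝ) ≤ 1 - 1 / (h : ℝ) := by
    have : (1 : ℝ) ≤ h := by exact_mod_cast hh
    have : 1 / (h : ℝ) ≤ 1 := by rw [div_le_one (by linarith)]; exact this
    linarith
  have hl : Real.log s ≤ Real.log ((h + 1 : ℕ) ^ k) :=
    Real.log_le_log (by exact_mod_cast h3) (by exact_mod_cast h4.trans hrk)
  have := core (M := s) (K := k) hh 1 0 le_rfl J
    ((mul_le_mul_of_nonneg_left hl (pow_nonneg hc J)).trans_lt hJ) (fun j _ => by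
      have := cover0 (M := s) (K := k) (h := h) (c := (h + 1) ^ (j * k)) (h4.trans hrk)
        (Nat.Coprime.pow_left _ h5)
      rw [one_mul]
      exact_mod_cast this) (-(((h + 1) ^ (2 * J * k) : ℕ) : ZMod s))
  obtain ⟨y, hy, t, ht, he⟩ := mem_R.1 this
  have hty : t = y := by
    have : (t : ℝ) - y = 0 := by simpa using he
    have : (t : ℝ) = y := by linarith
    exact_mod_cast this
  have hs : s ∣ y + (h + 1) ^ (2 * J * k) * 1 := by
    rw [← ZMod.natCast_eq_zero_iff]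
    rw [hty] at ht
    simp only [Int.cast_natCast] at ht
    rw [Nat.cast_add, ht]; simp
  have hek : e ≤ (h + 1) * k := by
    have : 2 ^ e ≤ 2 ^ ((h + 1) * k) := by
      refine h1.trans (hrk.trans ?_)
      rw [pow_mul]
      exact Nat.pow_le_pow_left (Nat.lt_two_pow_self).le _
    exact (Nat.pow_le_pow_iff_right (by norm_num)).1 this
  refine ⟨0 + (h + 1) ^ e * (y + (h + 1) ^ (2 * J * k) * 1),
    Z_mono (Z_add (Z_zero _ e) (Z_add hy (Z_one _))) (by omega), by positivity, ?_⟩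
  rw [zero_add]
  exact h6.trans (Nat.mul_dvd_mul_left _ hs)

theorem dense {M T : ℕ} [NeZero M] (hMT : M ≤ T) (θ : ℝ) (q : ℚ)
    (hq : |θ - q| ≤ 1 / ((T + 1) * q.den)) (hT : q.den ≤ T) (hM : M ≤ q.den) (g : ZMod M) :
    ∃ m : ℕ, m < T ∧ ∃ t : ℤ, (t : ZMod M) = g ∧ |(t : ℝ) - M * θ * m| ≤ 2 := by
  have hM0 : (0 : ℝ) < M := by exact_mod_cast Nat.pos_of_ne_zero (NeZero.ne M)
  have hr0 : (0 : ℤ) < q.den := by exact_mod_cast q.pos
  have hr : (0 : ℝ) < q.den := by exact_mod_cast q.pos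
  have hcop : IsCoprime q.num (q.den : ℤ) := by
    rw [Int.isCoprime_iff_gcd_eq_one]; exact q.reduced
  obtain ⟨u, v, huv⟩ := hcop
  set s : ℤ := round ((g.val : ℝ) / M * q.den) with hs
  have hm0 := Int.emod_nonneg (u * s) hr0.ne'
  have hm1 := Int.emod_lt_of_pos (u * s) hr0
  obtain ⟨m, hm⟩ := Int.eq_ofNat_of_zero_le hm0
  set z : ℤ := -s * v - q.num * (u * s / q.den) with hz
  have key : q.num * m = s + q.den * z := by
    rw [← hm, hz, Int.emod_def]; linear_combination s * huv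
  have hmr : m < q.den := by rw [hm] at hm1; exact_mod_cast hm1
  refine ⟨m, hmr.trans_le hT, g.val + M * z, by push_cast; simp, ?_⟩
  have key' : (q : ℝ) * m = s / q.den + z := by
    have : ((q.num * m : ℤ) : ℝ) = ((s + q.den * z : ℤ) : ℝ) := by rw [key]
    push_cast at this
    rw [Rat.cast_def]; field_simp; linarith
  have e : ((g.val + M * z : ℤ) : ℝ) - M * θ * m =
      M / q.den * ((g.val : ℝ) / M * q.den - s) - M * m * (θ - q) := by
    push_cast
    have : M * θ * m = M * m * (θ - q) + M * ((q : ℝ) * m) := by ring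
    rw [this, key']; field_simp; ring
  rw [e]
  refine (abs_sub _ _).trans ?_
  have a1 : |(M : ℝ) / q.den * ((g.val : ℝ) / M * q.den - s)| ≤ 1 := by
    rw [abs_mul, abs_of_pos (by positivity : (0 : ℝ) < M / q.den)]
    have h1 : (M : ℝ) / q.den ≤ 1 := by rw [div_le_one hr]; exact_mod_cast hM
    have h2 := abs_sub_round ((g.val : ℝ) / M * q.den)
    rw [← hs] at h2
    nlinarith [abs_nonneg ((g.val : ℝ) / M * q.den - s)]
  have a2 : |(M : ℝ) * m * (θ - q)| ≤ 1 := by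
    rw [abs_mul, abs_of_nonneg (by positivity : (0 : ℝ) ≤ M * m)]
    refine (mul_le_mul_of_nonneg_left hq (by positivity)).trans ?_
    rw [mul_one_div, div_le_one (by positivity)]
    have h1 : (M : ℝ) ≤ T := by exact_mod_cast hMT
    have h2 : (m : ℝ) ≤ q.den := by exact_mod_cast hmr.le
    exact mul_le_mul (by linarith) h2 (by positivity) (by positivity)
  linarith

theorem finite_bound {h k J : ℕ} (hh : 1 ≤ h) (γ : ℝ)
    (hJ : (1 - 1 / (h : ℝ)) ^ J * Real.log ((h + 1 : ℕ) ^ k) < Real.log 2) :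
    ∃ n, Z (h + 1) (2 * J * ((h + 1) * k + (2 * J * k + 1) + k) + 1) n ∧ 0 < n ∧
      ∃ z : ℤ, |γ * n - z| ≤ (2 * J * (2 + h) + 1) / ((h + 1 : ℕ) : ℝ) ^ k := by
  set L := (h + 1) * k + (2 * J * k + 1) with hL
  set K := L + k with hK
  set M := (h + 1) ^ k with hM
  haveI : NeZero M := ⟨by positivity⟩
  have hMr : (M : ℝ) = ((h + 1 : ℕ) : ℝ) ^ k := by rw [hM]; push_cast; ring
  have hM0 : (0 : ℝ) < M := by rw [hMr]; positivity
  have hTpos : 0 < (h + 1) ^ K := by positivity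
  have D := fun j : ℕ => Real.exists_rat_abs_sub_le_and_den_le
    (γ * ((h + 1 : ℕ) : ℝ) ^ (j * K)) hTpos
  choose q hq1 hq2 using D
  by_cases hd : ∀ j < 2 * J, M ≤ (q j).den
  · have hMT : M ≤ (h + 1) ^ K := Nat.pow_le_pow_right (by omega) (by omega)
    have := core (M := M) (K := K) hh (M * γ) (2 + h) (by positivity) J (by rwa [hMr])
      (fun j hj => by
        apply cover hh
        intro g
        have := dense hMT _ (q j) (hq1 j) (hq2 j) (hd j hj) g
        simpa only [mul_assoc] using this)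
      (-((round (M * γ * ((h + 1 : ℕ) : ℝ) ^ (2 * J * K)) : ℤ) : ZMod M))
    obtain ⟨y, hy, t, ht, he⟩ := mem_R.1 this
    set ρ := round (M * γ * ((h + 1 : ℕ) : ℝ) ^ (2 * J * K)) with hρ
    have hdv : (M : ℤ) ∣ t + ρ := by
      rw [← ZMod.intCast_zmod_eq_zero_iff_dvd]; push_cast; rw [ht]; simp
    obtain ⟨z, hz⟩ := hdv
    refine ⟨y + (h + 1) ^ (2 * J * K) * 1, Z_add hy (Z_one _), by positivity, z, ?_⟩
    rw [← hMr, le_div_iff₀ hM0, ← abs_of_pos hM0, ← abs_mul]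
    have hz' : (t : ℝ) + ρ = M * z := by exact_mod_cast hz
    have e : (γ * ((y + (h + 1) ^ (2 * J * K) * 1 : ℕ) : ℝ) - z) * M =
        -((t : ℝ) - M * γ * y) + (M * γ * ((h + 1 : ℕ) : ℝ) ^ (2 * J * K) - ρ) := by
      push_cast; linear_combination hz'
    rw [e]
    refine (abs_add_le _ _).trans ?_
    rw [abs_neg]
    have := abs_sub_round (M * γ * ((h + 1 : ℕ) : ℝ) ^ (2 * J * K))
    rw [← hρ] at this
    linarith
  · push Not at hd
    obtain ⟨j, hj, hden⟩ := hd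
    obtain ⟨n, hn, hpos, c, hc⟩ := modular hh (q j).pos hden.le hJ
    have hle : j * K + L ≤ 2 * J * K + 1 := by
      have : (j + 1) * K ≤ 2 * J * K := Nat.mul_le_mul_right _ hj
      have : (j + 1) * K = j * K + K := by ring
      omega
    refine ⟨0 + (h + 1) ^ (j * K) * n, Z_mono (Z_add (Z_zero _ _) hn) hle, by positivity,
      (q j).num * c, ?_⟩
    have hr : (0 : ℝ) < (q j).den := by exact_mod_cast (q j).pos
    have hr1 : (1 : ℝ) ≤ (q j).den := by exact_mod_cast (q j).pos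
    have e : γ * ((0 + (h + 1) ^ (j * K) * n : ℕ) : ℝ) - (((q j).num * c : ℤ) : ℝ) =
        (γ * ((h + 1 : ℕ) : ℝ) ^ (j * K) - q j) * n := by
      have : (n : ℝ) = (q j).den * c := by exact_mod_cast hc
      have h2 : ((q j : ℚ) : ℝ) * n = (q j).num * c := by
        rw [this, Rat.cast_def]; field_simp
      push_cast at h2 ⊢
      linear_combination h2
    rw [e, abs_mul, Nat.abs_cast n]
    have hn' : (n : ℝ) ≤ ((h + 1 : ℕ) : ℝ) ^ L := by
      exact_mod_cast (Z_lt (by omega) hn).le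
    have hq := hq1 j
    have hT : (((h + 1) ^ K : ℕ) : ℝ) = ((h + 1 : ℕ) : ℝ) ^ L * ((h + 1 : ℕ) : ℝ) ^ k := by
      rw [hK]; push_cast; ring
    rw [hT] at hq
    have hA : (0 : ℝ) < ((h + 1 : ℕ) : ℝ) ^ L := by positivity
    have hB : (0 : ℝ) < ((h + 1 : ℕ) : ℝ) ^ k := by positivity
    generalize ((h + 1 : ℕ) : ℝ) ^ L = A at *
    generalize ((h + 1 : ℕ) : ℝ) ^ k = B at *
    refine (mul_le_mul hq hn' (by positivity) (by positivity)).trans ?_
    rw [div_mul_eq_mul_div, div_le_div_iff₀ (by positivity) hB]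
    have h0 : (0 : ℝ) ≤ 2 * J * (2 + h) := by positivity
    have h1 : A * B ≤ (A * B + 1) * (q j).den := by nlinarith [mul_pos hA hB]
    nlinarith [mul_nonneg h0 (by positivity : (0 : ℝ) ≤ (A * B + 1) * (q j).den)]

end Pool.Agent.H.MP_fcf9e8_nt
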